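import Pool.Agent.Helper96.CT.Stmts

/-!
# Row LA of the sheet CT
-/

set_option autoImplicit false

namespace Pool.Agent.Helper96.CT

open SimpleGraph Relation

section
variable {V : Type} [DecidableEq V] (F : SimpleGraph V)

/-- one step to a vertex of `S` -/
def stp (S : Finset V) (a b : V) : Prop := F.Adj a b ∧ b ∈ S

omit [DecidableEq V] in
theorem rtg_of_list (S : Finset V) : ∀ l : List V, l.IsChain F.Adj → (∀ y ∈ l, y ∈ S) →
    ∀ v ∈ l.head?, ∀ x ∈ l.getLast?, ReflTransGen (stp F S) v x := by
  intro l
  induction l with
  | nil => intro _ _ v hv; simp at hv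
  | cons a l ih =>
    intro hc hS v hv x hx
    have hva : a = v := by simpa using hv
    subst hva
    cases l with
    | nil =>
      have : a = x := by simpa using hx
      subst this
      exact ReflTransGen.refl
    | cons b l =>
      rw [List.isChain_cons_cons] at hc
      have hx' : x ∈ (b :: l).getLast? := by simpa using hx
      have h1 := ih hc.2 (fun y hy => hS y (List.mem_cons_of_mem _ hy)) b (by simp) x hx'
      exact ReflTransGen.head ⟨hc.1, hS b (by simp)⟩ h1

theorem la_core : ∀ n : ℕ, ∀ (S R : Finset V) (h : ℕ), S.card ≤ n → R ⊆ S →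
    (∀ x ∈ S, ∃ v ∈ R, ReflTransGen (stp F S) v x) →
    (∀ l : List V, l.Nodup → l.IsChain F.Adj → (∀ y ∈ l, y ∈ S) → (∀ y ∈ l.head?, y ∈ R) →
      l.length ≤ h) →
    ∃ I ⊆ S, (∀ x ∈ I, ∀ y ∈ I, x ≠ y → ¬ F.Adj x y) ∧ S.card ≤ h * I.card := by
  classical
  intro n
  induction n with
  | zero =>
    intro S R h hn _ _ _
    refine ⟨∅, by simp, by simp, by omega⟩
  | succ n ih =>
    intro S R h hn hRS hre hpa
    rcases S.eq_empty_or_nonempty with rfl | ⟨x0, hx0⟩
    · exact ⟨∅, by simp, by simp, by simp⟩
    obtain ⟨v, hvR, -⟩ := hre x0 hx0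
    have hvS : v ∈ S := hRS hvR
    set C : Finset V := S.filter (fun x => ReflTransGen (stp F S) v x) with hC
    have hvC : v ∈ C := Finset.mem_filter.2 ⟨hvS, ReflTransGen.refl⟩
    have hCS : C ⊆ S := Finset.filter_subset _ _
    by_cases hCe : C = S
    · -- everything is reached from `v`
      have hall : ∀ x ∈ S, ReflTransGen (stp F S) v x := fun x hx =>
        (Finset.mem_filter.1 (hCe ▸ hx : x ∈ C)).2
      set S' := S.erase v with hS'
      set R' := S'.filter (fun w => F.Adj v w) with hR'
      have hstep : ∀ x, ReflTransGen (stp F S) v x →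
          x = v ∨ ∃ w ∈ R', ReflTransGen (stp F S') w x := by
        intro x hx
        induction hx with
        | refl => exact Or.inl rfl
        | tail hvy hyb ihy =>
          rename_i y b
          by_cases hbv : b = v
          · exact Or.inl hbv
          · right
            have hbS' : b ∈ S' := Finset.mem_erase.2 ⟨hbv, hyb.2⟩
            rcases ihy with rfl | ⟨w, hw, hwy⟩
            · exact ⟨b, Finset.mem_filter.2 ⟨hbS', hyb.1⟩, ReflTransGen.refl⟩
            · exact ⟨w, hw, hwy.tail ⟨hyb.1, hbS'⟩⟩
      have h1 : 1 ≤ h := by
        have := hpa [v] (by simp) (by simp) (by simpa using hvS) (by simpa using hvR)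
        simpa using this
      have hcard : S'.card + 1 = S.card := Finset.card_erase_add_one hvS
      obtain ⟨I, hIS, hI, hIc⟩ := ih S' R' (h - 1) (by omega) (Finset.filter_subset _ _)
        (by
          intro x hx
          rw [Finset.mem_erase] at hx
          rcases hstep x (hall x hx.2) with h2 | h2
          · exact absurd h2 hx.1
          · exact h2)
        (by
          intro l hl1 hl2 hl3 hl4
          cases l with
          | nil => simp
          | cons w l =>
            have hw : w ∈ R' := hl4 w (by simp)
            have hvw : F.Adj v w := (Finset.mem_filter.1 hw).2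
            have hvl : v ∉ (w :: l) := fun hmem => by
              have := hl3 v hmem
              rw [hS', Finset.mem_erase] at this
              exact this.1 rfl
            have := hpa (v :: w :: l) (List.nodup_cons.2 ⟨hvl, hl1⟩)
              (List.isChain_cons_cons.2 ⟨hvw, hl2⟩)
              (by
                intro y hy
                rcases List.mem_cons.1 hy with rfl | hy
                · exact hvS
                · exact Finset.mem_of_mem_erase (hl3 y hy))
              (by simpa using hvR)
            simp only [List.length_cons] at this ⊢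
            omega)
      rcases I.eq_empty_or_nonempty with rfl | hne
      · refine ⟨{v}, by simpa using hvS, ?_, ?_⟩
        · intro x hx y hy hxy
          rw [Finset.mem_singleton] at hx hy
          exact absurd (hx.trans hy.symm) hxy
        · rw [Finset.card_empty, mul_zero] at hIc
          rw [Finset.card_singleton]
          omega
      · refine ⟨I, hIS.trans (Finset.erase_subset _ _), hI, ?_⟩
        have h2 : 1 ≤ I.card := Finset.card_pos.2 hne
        obtain ⟨h', rfl⟩ : ∃ h', h = h' + 1 := ⟨h - 1, by omega⟩
        rw [Nat.add_sub_cancel] at hIc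
        have : (h' + 1) * I.card = h' * I.card + I.card := by ring
        omega
    · -- two parts
      have hlt : C.card < S.card := Finset.card_lt_card (hCS.ssubset_of_ne hCe)
      obtain ⟨I1, hI1S, hI1, hI1c⟩ := ih C {v} h (by omega) (by simpa using hvC)
        (by
          intro x hx
          refine ⟨v, by simp, ?_⟩
          have hx2 := (Finset.mem_filter.1 hx).2
          clear hx
          induction hx2 with
          | refl => exact ReflTransGen.refl
          | tail hvy hyb ihy =>
            rename_i y b
            exact ihy.tail ⟨hyb.1, Finset.mem_filter.2 ⟨hyb.2, hvy.tail hyb⟩⟩)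
        (by
          intro l hl1 hl2 hl3 hl4
          refine hpa l hl1 hl2 (fun y hy => hCS (hl3 y hy)) ?_
          intro y hy
          have := hl4 y hy
          rw [Finset.mem_singleton] at this
          rw [this]
          exact hvR)
      have hDlt : (S \ C).card < S.card := by
        have h3 := Finset.card_sdiff_add_card_eq_card hCS
        have h4 : 0 < C.card := Finset.card_pos.2 ⟨v, hvC⟩
        omega
      obtain ⟨I2, hI2S, hI2, hI2c⟩ := ih (S \ C) (R \ C) h (by omega)
        (Finset.sdiff_subset_sdiff hRS (le_refl _))
        (by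
          intro x hx
          rw [Finset.mem_sdiff] at hx
          obtain ⟨w, hwR, hwx⟩ := hre x hx.1
          have hkey : ∀ a, ReflTransGen (stp F S) a x → a ∈ S →
              a ∉ C ∧ ReflTransGen (stp F (S \ C)) a x := by
            intro a ha
            induction ha using ReflTransGen.head_induction_on with
            | refl => exact fun _ => ⟨hx.2, ReflTransGen.refl⟩
            | head hab hbx ihb =>
              rename_i a b
              intro haS
              obtain ⟨hb1, hb2⟩ := ihb hab.2
              refine ⟨fun haC => ?_, ReflTransGen.head ⟨hab.1, Finset.mem_sdiff.2 ⟨hab.2, hb1⟩⟩ hb2⟩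
              exact hb1 (Finset.mem_filter.2 ⟨hab.2, (Finset.mem_filter.1 haC).2.tail hab⟩)
          obtain ⟨h5, h6⟩ := hkey w hwx (hRS hwR)
          exact ⟨w, Finset.mem_sdiff.2 ⟨hwR, h5⟩, h6⟩)
        (by
          intro l hl1 hl2 hl3 hl4
          exact hpa l hl1 hl2 (fun y hy => (Finset.mem_sdiff.1 (hl3 y hy)).1)
            (fun y hy => (Finset.mem_sdiff.1 (hl4 y hy)).1))
      have hcross : ∀ x ∈ C, ∀ y ∈ S \ C, ¬ F.Adj x y := by
        intro x hx y hy hxy
        rw [Finset.mem_sdiff] at hy
        exact hy.2 (Finset.mem_filter.2 ⟨hy.1, (Finset.mem_filter.1 hx).2.tail ⟨hxy, hy.1⟩⟩)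
      refine ⟨I1 ∪ I2, Finset.union_subset (hI1S.trans hCS) (hI2S.trans Finset.sdiff_subset), ?_, ?_⟩
      · intro x hx y hy hxy hadj
        rcases Finset.mem_union.1 hx with hx | hx <;> rcases Finset.mem_union.1 hy with hy | hy
        · exact hI1 x hx y hy hxy hadj
        · exact hcross x (hI1S hx) y (hI2S hy) hadj
        · exact hcross y (hI1S hy) x (hI2S hx) hadj.symm
        · exact hI2 x hx y hy hxy hadj
      · have hdis : Disjoint I1 I2 := by
          rw [Finset.disjoint_left]
          intro x hx1 hx2
          exact (Finset.mem_sdiff.1 (hI2S hx2)).2 (hI1S hx1)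
        rw [Finset.card_union_of_disjoint hdis, mul_add]
        have h3 := Finset.card_sdiff_add_card_eq_card hCS
        omega

end

theorem st_LA : ST_LA := by
  intro V _ _ F h S R hRS hre hpa
  refine la_core F S.card S R h le_rfl hRS ?_ hpa
  intro x hx
  obtain ⟨l, hl0, hl1, hl2, hl3, hl4⟩ := hre x hx
  cases l with
  | nil => exact absurd rfl hl0
  | cons a l =>
    refine ⟨a, hl3 a (by simp), rtg_of_list F S (a :: l) hl1 hl2 a (by simp) x ?_⟩
    obtain ⟨z, hz⟩ : ∃ z, z ∈ (a :: l).getLast? := by
      rw [List.getLast?_eq_some_getLast (List.cons_ne_nil a l)]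
      exact ⟨_, rfl⟩
    have := hl4 z hz
    rw [← this]
    exact hz

end Pool.Agent.Helper96.CT
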