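import Pool.Agent.Helper96.CT.Stmts

/-!
# Row UP of the sheet CT: the longest path of a connected graph of given independence number
-/

set_option autoImplicit false

namespace Pool.Agent.Helper96.CT

open SimpleGraph

section
variable {V : Type} (F : SimpleGraph V)

theorem chain_rev {l : List V} (h : l.IsChain F.Adj) : l.reverse.IsChain F.Adj := by
  rw [List.isChain_reverse]
  refine h.imp ?_
  intro a b hab
  exact hab.symm

/-- from a walk to a list inside `S` -/
theorem good_or (S R : Finset V) (l : List V) (hS : ∀ x, x ∈ S ↔ x ∉ l)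
    (hR : ∀ x, x ∈ R ↔ x ∈ S ∧ ∃ y ∈ l, F.Adj x y) {u x : V} (w : F.Walk u x) (hx : x ∈ S) :
    (∃ L : List V, L ≠ [] ∧ L.IsChain F.Adj ∧ (∀ y ∈ L, y ∈ S) ∧
      (∀ y ∈ L.head?, y ∈ R) ∧ ∀ y ∈ L.getLast?, y = x) ∨
    (u ∈ S ∧ ∃ L : List V, (u :: L).IsChain F.Adj ∧ (∀ y ∈ u :: L, y ∈ S) ∧
      ∀ y ∈ (u :: L).getLast?, y = x) := by
  induction w with
  | nil =>
    right
    refine ⟨hx, [], by simp, by simpa using hx, ?_⟩
    intro y hy
    simp only [List.getLast?_singleton, Option.mem_def, Option.some.injEq] at hy
    exact hy.symm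
  | @cons u u' x hadj w' ih =>
    rcases ih hx with h | ⟨hu', L, hL1, hL2, hL3⟩
    · exact Or.inl h
    · by_cases hu : u ∈ S
      · right
        refine ⟨hu, u' :: L, List.isChain_cons_cons.2 ⟨hadj, hL1⟩, ?_, ?_⟩
        · intro y hy
          rcases List.mem_cons.1 hy with rfl | hy
          · exact hu
          · exact hL2 y hy
        · intro y hy
          rw [List.getLast?_cons_cons] at hy
          exact hL3 y hy
      · left
        refine ⟨u' :: L, List.cons_ne_nil _ _, hL1, hL2, ?_, hL3⟩
        intro y hy
        simp only [List.head?_cons, Option.mem_def, Option.some.injEq] at hy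
        subst hy
        rw [hR]
        refine ⟨hu', u, ?_, hadj.symm⟩
        by_contra hcon
        exact hu ((hS u).2 hcon)

end

theorem st_UP (hLA : ST_LA) : ST_UP := by
  classical
  intro V _ F k p hF hk hp hA hP
  let Q : ℕ → Prop := fun q => ∃ l : List V, l.Nodup ∧ l.IsChain F.Adj ∧ l.length = q
  have hQ0 : Q 0 := ⟨[], by simp, by simp, rfl⟩
  obtain ⟨l, hl1, hl2, hl3⟩ : Q (Nat.findGreatest Q p) := Nat.findGreatest_spec (Nat.zero_le _) hQ0
  set q := Nat.findGreatest Q p with hq
  have hqp : q ≤ p := Nat.findGreatest_le p
  have hmax : ∀ L : List V, L.Nodup → L.IsChain F.Adj → L.length ≤ q := fun L h1 h2 =>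
    Nat.le_findGreatest (hP L h1 h2) ⟨L, h1, h2, rfl⟩
  have hpform : p = 2 * ((p - 1) / 2) + 1 + (p + 1) % 2 := by omega
  have hkk : 2 * ((p - 1) / 2) + (k - 2) * ((p - 1) / 2) = k * ((p - 1) / 2) := by
    rw [← add_mul]; congr 1; omega
  obtain ⟨v0⟩ := hF.nonempty
  have hq1 : 1 ≤ q := by
    have := hmax [v0] (by simp) (by simp)
    simpa using this
  let S : Finset V := Finset.univ.filter (fun x => x ∉ l)
  have hS : ∀ x, x ∈ S ↔ x ∉ l := fun x => by simp [S]
  let R : Finset V := S.filter (fun x => ∃ y ∈ l, F.Adj x y)
  have hR : ∀ x, x ∈ R ↔ x ∈ S ∧ ∃ y ∈ l, F.Adj x y := fun x => by simp [R]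
  have hcard : Fintype.card V = q + S.card := by
    have h1 : S = Finset.univ \ l.toFinset := by
      ext x; simp [S]
    have h2 : l.toFinset.card = q := by
      rw [List.toFinset_card_of_nodup hl1, hl3]
    rw [h1, Finset.card_sdiff_of_subset (Finset.subset_univ _), Finset.card_univ, h2]
    have h3 : l.toFinset.card ≤ Fintype.card V := Finset.card_le_univ _
    omega
  obtain ⟨y0, hy0⟩ : ∃ y, y ∈ l := by
    cases l with
    | nil => simp at hl3; omega
    | cons a l => exact ⟨a, by simp⟩
  have hgood : ∀ x ∈ S, ∃ L : List V, L ≠ [] ∧ L.IsChain F.Adj ∧ (∀ y ∈ L, y ∈ S) ∧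
      (∀ y ∈ L.head?, y ∈ R) ∧ ∀ y ∈ L.getLast?, y = x := by
    intro x hx
    obtain ⟨w⟩ := hF.preconnected y0 x
    rcases good_or F S R l hS hR w hx with h | ⟨h, -⟩
    · exact h
    · exact absurd hy0 ((hS y0).1 h)
  have hpath : ∀ L : List V, L.Nodup → L.IsChain F.Adj → (∀ y ∈ L, y ∈ S) →
      (∀ y ∈ L.head?, y ∈ R) → L.length ≤ (q - 1) / 2 := by
    intro L hL1 hL2 hL3 hL4
    cases L with
    | nil => simp
    | cons u L =>
      have huR := (hR u).1 (hL4 u (by simp))
      obtain ⟨-, y, hyl, huy⟩ := huR
      obtain ⟨l1, l2, rfl⟩ := List.append_of_mem hyl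
      have hch := hl2
      rw [List.isChain_append] at hch
      obtain ⟨hc1, hc2, hc3⟩ := hch
      have hdisj : ∀ z ∈ u :: L, z ∉ l1 ++ y :: l2 := fun z hz => (hS z).1 (hL3 z hz)
      have hnd := hl1
      rw [List.nodup_append] at hnd
      obtain ⟨hn1, hn2, hn3⟩ := hnd
      have hlen : l1.length + (l2.length + 1) = q := by
        rw [← hl3]; simp
      -- first path
      have hA1 := hmax ((u :: L).reverse ++ y :: l2) (by
          rw [List.nodup_append]
          refine ⟨List.nodup_reverse.2 hL1, hn2, ?_⟩
          intro a ha b hb hab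
          subst hab
          rw [List.mem_reverse] at ha
          exact hdisj a ha (List.mem_append_right _ hb))
        (by
          rw [List.isChain_append]
          refine ⟨chain_rev F hL2, hc2, ?_⟩
          intro a ha b hb
          rw [List.getLast?_reverse] at ha
          simp only [List.head?_cons, Option.mem_def, Option.some.injEq] at ha hb
          subst ha; subst hb
          exact huy)
      have hB1 := hmax ((l1 ++ [y]) ++ u :: L) (by
          rw [List.nodup_append]
          refine ⟨?_, hL1, ?_⟩
          · have h1 : (l1 ++ [y]).Sublist (l1 ++ y :: l2) :=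
              List.Sublist.append_left (by simp) l1
            exact h1.nodup hl1
          · intro a ha b hb hab
            subst hab
            refine hdisj a hb ?_
            rcases List.mem_append.1 ha with ha | ha
            · exact List.mem_append_left _ ha
            · rw [List.mem_singleton] at ha
              subst ha
              exact List.mem_append_right _ (by simp))
        (by
          rw [List.isChain_append]
          refine ⟨(List.isChain_split.1 hl2).1, hL2, ?_⟩
          intro a ha b hb
          rw [List.getLast?_concat] at ha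
          simp only [List.head?_cons, Option.mem_def, Option.some.injEq] at ha hb
          subst ha; subst hb
          exact huy.symm)
      simp only [List.length_append, List.length_reverse, List.length_cons, List.length_nil] at hA1 hB1 ⊢
      omega
  by_cases hSe : S = ∅
  · rw [hcard, hSe, Finset.card_empty]
    have h1 : 2 * ((p - 1) / 2) ≤ k * ((p - 1) / 2) := Nat.mul_le_mul_right _ hk
    omega
  obtain ⟨s0, hs0⟩ := Finset.nonempty_iff_ne_empty.2 hSe
  obtain ⟨u, huR⟩ : ∃ u, u ∈ R := by
    obtain ⟨L, hL0, -, -, hL4, -⟩ := hgood s0 hs0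
    cases L with
    | nil => exact absurd rfl hL0
    | cons a L => exact ⟨a, hL4 a (by simp)⟩
  obtain ⟨huS, y, hyl, huy⟩ := (hR u).1 huR
  obtain ⟨I, hIS, hI, hIc⟩ := hLA V F ((q - 1) / 2) S R (Finset.filter_subset _ _) hgood hpath
  -- the two ends
  have hlne : l ≠ [] := List.ne_nil_of_mem hy0
  have hx0 : ∀ s ∈ S, ¬ F.Adj s (l.head hlne) := by
    intro s hs hadj
    have h1 := hmax (s :: l) (List.nodup_cons.2 ⟨(hS s).1 hs, hl1⟩) (by
      obtain ⟨a, l', rfl⟩ := List.exists_cons_of_ne_nil hlne
      exact List.isChain_cons_cons.2 ⟨hadj, hl2⟩)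
    rw [List.length_cons, hl3] at h1
    omega
  have hx1 : ∀ s ∈ S, ¬ F.Adj s (l.getLast hlne) := by
    intro s hs hadj
    have h1 := hmax (l ++ [s]) (by
        rw [List.nodup_append]
        refine ⟨hl1, by simp, ?_⟩
        intro a ha b hb hab
        rw [List.mem_singleton] at hb
        subst hab; subst hb
        exact (hS a).1 hs ha) (by
      rw [List.isChain_append]
      refine ⟨hl2, by simp, ?_⟩
      intro a ha b hb
      rw [List.getLast?_eq_some_getLast hlne] at ha
      simp only [List.head?_cons, Option.mem_def, Option.some.injEq] at ha hb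
      subst ha; subst hb
      exact hadj.symm)
    rw [List.length_append, List.length_singleton, hl3] at h1
    omega
  obtain ⟨l1, l2, hl12⟩ := List.append_of_mem hyl
  have hl1ne : l1 ≠ [] := by
    intro h
    subst h
    have h1 : l.head hlne = y := by
      simp only [hl12, List.nil_append, List.head_cons]
    exact hx0 u huS (h1 ▸ huy)
  have hend : ¬ F.Adj (l.getLast hlne) (l.head hlne) := by
    intro hadj
    subst hl12
    have hch := hl2
    rw [List.isChain_append] at hch
    obtain ⟨hc1, hc2, hc3⟩ := hch
    have hnd := hl1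
    rw [List.nodup_append] at hnd
    obtain ⟨hn1, hn2, hn3⟩ := hnd
    have h1 := hmax (u :: ((y :: l2) ++ l1)) (by
        rw [List.nodup_cons]
        constructor
        · intro hmem
          apply (hS u).1 huS
          rcases List.mem_append.1 hmem with h | h
          · exact List.mem_append_right _ h
          · exact List.mem_append_left _ h
        · rw [List.nodup_append]
          refine ⟨hn2, hn1, ?_⟩
          intro a ha b hb hab
          exact hn3 b hb a ha hab.symm)
      (by
        rw [List.cons_append, List.isChain_cons_cons]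
        refine ⟨huy, ?_⟩
        rw [← List.cons_append, List.isChain_append]
        refine ⟨hc2, hc1, ?_⟩
        intro a ha b hb
        have h2 : (l1 ++ y :: l2).getLast hlne = a := by
          have h3 : (l1 ++ y :: l2).getLast? = some a := by
            rw [List.getLast?_append_of_ne_nil _ (List.cons_ne_nil _ _)]
            exact ha
          rw [List.getLast?_eq_some_getLast hlne] at h3
          exact Option.some.inj h3
        have h4 : (l1 ++ y :: l2).head hlne = b := by
          have h5 : (l1 ++ y :: l2).head? = some b := by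
            rw [List.head?_append_of_ne_nil _ hl1ne]
            exact hb
          rw [List.head?_eq_some_head hlne] at h5
          exact Option.some.inj h5
        rw [h2, h4] at hadj
        exact hadj)
    simp only [List.length_cons, List.length_append] at h1 hl3
    omega
  have hne : l.head hlne ≠ l.getLast hlne := by
    intro h
    -- `l` has length one
    have h1 : l.length = 1 := by
      obtain ⟨a, l', rfl⟩ := List.exists_cons_of_ne_nil hlne
      cases l' with
      | nil => rfl
      | cons b l' =>
        exfalso
        rw [List.head_cons, List.getLast_cons (List.cons_ne_nil _ _)] at h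
        have h2 : a ∈ b :: l' := by
          rw [h]
          exact List.getLast_mem _
        exact (List.nodup_cons.1 hl1).1 h2
    rw [hl12] at h1
    rw [List.length_append, List.length_cons] at h1
    exact hl1ne (List.eq_nil_of_length_eq_zero (by omega))
  have hmem0 : l.head hlne ∈ l := List.head_mem _
  have hmem1 : l.getLast hlne ∈ l := List.getLast_mem _
  have hn0 : l.head hlne ∉ I := fun h => (hS _).1 (hIS h) hmem0
  have hn1 : l.getLast hlne ∉ I := fun h => (hS _).1 (hIS h) hmem1
  have hk2 := hA (insert (l.head hlne) (insert (l.getLast hlne) I)) (by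
    intro a ha b hb hab hadj
    rw [Finset.mem_insert, Finset.mem_insert] at ha hb
    rcases ha with rfl | rfl | ha <;> rcases hb with rfl | rfl | hb
    · exact hab rfl
    · exact hend hadj.symm
    · exact hx0 b (hIS hb) hadj.symm
    · exact hend hadj
    · exact hab rfl
    · exact hx1 b (hIS hb) hadj.symm
    · exact hx0 a (hIS ha) hadj
    · exact hx1 a (hIS ha) hadj
    · exact hI a ha b hb hab hadj)
  rw [Finset.card_insert_of_notMem (by
    rw [Finset.mem_insert, not_or]; exact ⟨hne, hn0⟩), Finset.card_insert_of_notMem hn1] at hk2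
  have h5 : (q - 1) / 2 * I.card ≤ (p - 1) / 2 * (k - 2) :=
    Nat.mul_le_mul (Nat.div_le_div_right (by omega)) (by omega)
  rw [mul_comm ((p - 1) / 2) (k - 2)] at h5
  omega

end Pool.Agent.Helper96.CT
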