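import Pool.Agent.Helper96.CT.Conv
import Pool.Agent.Helper96.CT.LA
import Pool.Agent.Helper96.CT.UP
import Pool.Agent.Helper39.CT.LO
import Pool.Agent.Helper3.CT.L5
import Pool.Agent.Helper4.CT.BR
import Pool.Agent.Helper18.CT.SL
import Pool.Agent.Helper77.CT.SC
import Pool.Agent.Helper87.CT.SD

/-!
# Sheet CT: assembly
-/

set_option autoImplicit false

namespace Pool.Agent.Helper96.CT

open SimpleGraph

/-- `k` is at least `4` and every graph on `N ≥ k` vertices, connected with connected complement,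
contains `G` or has `H` in its complement -/
def Forces {α β : Type} (G : SimpleGraph α) (H : SimpleGraph β) : Set ℕ :=
  {k : ℕ | 4 ≤ k ∧ ∀ N, k ≤ N → ∀ F : SimpleGraph (Fin N), (F.Connected ∧ Fᶜ.Connected) →
    G.IsContained F ∨ H.IsContained Fᶜ}

theorem small_n {α : Type} (G : SimpleGraph α) {n : ℕ} (hn : n ≤ 2) :
    IsLeast (Forces G (⊤ : SimpleGraph (Fin n))) 4 := by
  refine ⟨⟨le_rfl, fun N hN F hF => Or.inr ?_⟩, fun k hk => hk.1⟩
  obtain ⟨I, hI, hc⟩ := two_indep (by omega) hF.2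
  exact contained_of_indep I hI (by omega)

theorem path_bound {N m n : ℕ} (hm : 5 ≤ m) (hn : 3 ≤ n)
    (hN : (n - 1) * ((m - 2) / 2) + 2 + m % 2 ≤ N) (F : SimpleGraph (Fin N)) (hF : F.Connected) :
    (pathGraph m).IsContained F ∨ (⊤ : SimpleGraph (Fin n)).IsContained Fᶜ := by
  by_contra hcon
  rw [not_or] at hcon
  have h1 := st_UP st_LA (Fin N) F (n - 1) (m - 1) hF (by omega) (by omega)
    (al_of_not (by omega) hcon.2) (pl_of_not hcon.1)
  rw [Fintype.card_fin, show m - 1 - 1 = m - 2 by omega, show m - 1 + 1 = m by omega] at h1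
  omega

theorem path_witness {m n : ℕ} (hm : 5 ≤ m) (hn : 3 ≤ n) :
    ∃ (V : Type) (_ : Fintype V) (F : SimpleGraph V),
      Fintype.card V = (n - 1) * ((m - 2) / 2) + 1 + m % 2 ∧
      F.Connected ∧ Fᶜ.Connected ∧ AL F (n - 1) ∧ PL F (m - 1) := by
  rcases Nat.eq_or_lt_of_le hm with rfl | hm6
  · obtain ⟨V, i, F, h1, h2, h3, h4, h5⟩ := Pool.Agent.Helper3.CT.st_L5 (n - 1) (by omega)
    exact ⟨V, i, F, by rw [h1]; omega, h2, h3, h4, h5⟩
  · obtain ⟨V, i, F, h1, h2, h3, h4, h5⟩ := Pool.Agent.Helper39.CT.st_LO ((m - 2) / 2)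
      (m - 1 - (m - 2) / 2) (n - 2) (by omega) (by omega) (by omega)
    refine ⟨V, i, F, ?_, h2, h3, ?_, ?_⟩
    · rw [h1]
      obtain ⟨t, rfl⟩ : ∃ t, n = t + 2 := ⟨n - 2, by omega⟩
      rw [show t + 2 - 2 = t by omega, show t + 2 - 1 = t + 1 by omega, add_mul]
      omega
    · rw [show n - 1 = n - 2 + 1 by omega]; exact h4
    · have h6 : (m - 2) / 2 + (m - 1 - (m - 2) / 2) = m - 1 := by omega
      rw [h6] at h5
      exact h5

theorem path_main (m n : ℕ) : IsLeast (Forces (pathGraph m) (⊤ : SimpleGraph (Fin n)))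
    (if m ≤ 4 ∨ n ≤ 2 then 4 else (n - 1) * ((m - 2) / 2) + 2 + m % 2) := by
  by_cases hn : n ≤ 2
  · rw [if_pos (Or.inr hn)]
    exact small_n _ hn
  by_cases hm : m ≤ 4
  · rw [if_pos (Or.inl hm)]
    exact ⟨⟨le_rfl, fun N hN F hF => Or.inl (Pool.Agent.Helper70.Cr.four hN hm F hF.1 hF.2)⟩,
      fun k hk => hk.1⟩
  rw [if_neg (by omega)]
  have h4 : 2 * 1 ≤ (n - 1) * ((m - 2) / 2) := Nat.mul_le_mul (by omega) (by omega)
  refine ⟨⟨by omega, fun N hN F hF => path_bound (by omega) (by omega) hN F hF.1⟩, ?_⟩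
  intro k hk
  by_contra hcon
  obtain ⟨V, i, F, h1, h2, h3, h5, h6⟩ := path_witness (m := m) (n := n) (by omega) (by omega)
  let e : Fin ((n - 1) * ((m - 2) / 2) + 1 + m % 2) ≃ V := (Fintype.equivFinOfCardEq h1).symm
  rcases hk.2 _ (by omega) (F.comap e) ⟨conn_comap e h2, conn_compl_comap e h3⟩ with h | h
  · exact not_of_pl (PL.comap e h6) (by omega) h
  · exact not_of_al (AL.comap e h5) (by omega) h

/-- the number of vertices of a coloured graph -/
theorem card_le_of_col {V : Type} [Fintype V] {F : SimpleGraph V} {d k : ℕ} (h : F.Colorable d)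
    (hA : AL F k) : Fintype.card V ≤ d * k := by
  classical
  obtain ⟨c⟩ := h
  have h1 : (Finset.univ : Finset V).card ≤ k * (Finset.univ : Finset (Fin d)).card := by
    apply Finset.card_le_mul_card_image_of_maps_to (f := fun v => c v)
    · intro v _
      exact Finset.mem_univ _
    · intro b _
      apply hA
      intro x hx y hy hxy hadj
      rw [Finset.mem_filter] at hx hy
      exact c.valid hadj (hx.2.trans hy.2.symm)
  rw [Finset.card_univ, Finset.card_univ, Fintype.card_fin] at h1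
  rw [mul_comm]
  exact h1

theorem star_small {N s : ℕ} (hN : 4 ≤ N) (hs : s ≤ 2) (F : SimpleGraph (Fin N))
    (hF : F.Connected) (hF' : Fᶜ.Connected) : (star s).IsContained F := by
  classical
  have h := Pool.Agent.Helper70.Cr.four hN (show 3 ≤ 4 by omega) F hF hF'
  obtain ⟨g, hg1, hg2⟩ := Pool.Agent.Helper70.Cr.path_seq (by omega) h
  have h0 := hg2 0 (by omega)
  have h1 := hg2 1 (by omega)
  have hne : g 0 ≠ g 2 := fun h => by
    have := hg1 0 (by omega) 2 (by omega) h
    omega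
  refine star_contained (g 1) {g 0, g 2} ?_ ?_
  · intro x hx
    rw [Finset.mem_insert, Finset.mem_singleton] at hx
    rcases hx with rfl | rfl
    · exact h0.symm
    · exact h1
  · rw [Finset.card_pair hne]
    exact hs

theorem star_main (s n : ℕ) : IsLeast (Forces (star s) (⊤ : SimpleGraph (Fin n)))
    (if s ≤ 2 ∨ n ≤ 2 then 4 else if s = 3 then 2 * n else (s - 1) * (n - 1) + 1) := by
  by_cases hn : n ≤ 2
  · rw [if_pos (Or.inr hn)]
    exact small_n _ hn
  by_cases hs : s ≤ 2
  · rw [if_pos (Or.inl hs)]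
    exact ⟨⟨le_rfl, fun N hN F hF => Or.inl (star_small hN hs F hF.1 hF.2)⟩, fun k hk => hk.1⟩
  rw [if_neg (by omega)]
  by_cases hs3 : s = 3
  · rw [if_pos hs3]
    subst hs3
    refine ⟨⟨by omega, fun N hN F hF => ?_⟩, ?_⟩
    · by_contra hcon
      rw [not_or] at hcon
      have h1 := Pool.Agent.Helper87.CT.st_SD (Fin N) F (n - 1) hF.1
        (dl_of_not (by omega) hcon.1) (al_of_not (by omega) hcon.2)
      rw [Fintype.card_fin] at h1
      omega
    · intro k hk
      by_contra hcon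
      obtain ⟨V, i, F, h1, h2, h3, h5, h6⟩ := Pool.Agent.Helper77.CT.st_SC (n - 1) (by omega)
      let e : Fin (2 * (n - 1) + 1) ≃ V := (Fintype.equivFinOfCardEq h1).symm
      rcases hk.2 _ (by omega) (F.comap e) ⟨conn_comap e h2, conn_compl_comap e h3⟩ with h | h
      · exact not_of_dl (DL.comap e h6) (by omega) h
      · exact not_of_al (AL.comap e h5) (by omega) h
  · rw [if_neg hs3]
    have h4 : 3 * 2 ≤ (s - 1) * (n - 1) := Nat.mul_le_mul (by omega) (by omega)
    refine ⟨⟨by omega, fun N hN F hF => ?_⟩, ?_⟩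
    · by_contra hcon
      rw [not_or] at hcon
      have hD := dl_of_not (by omega) hcon.1
      have hA := al_of_not (by omega) hcon.2
      by_cases hbig : s - 1 + 1 < N
      · have h1 := Pool.Agent.Helper4.CT.st_BR (Fin N) F (s - 1) (by omega) hF.1 hD
          (by rw [Fintype.card_fin]; exact hbig)
        have h2 := card_le_of_col h1 hA
        rw [Fintype.card_fin] at h2
        omega
      · have h5 : (s - 1) * 2 ≤ (s - 1) * (n - 1) := Nat.mul_le_mul_left _ (by omega)
        omega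
    · intro k hk
      by_contra hcon
      obtain ⟨V, i, F, h1, h2, h3, h5, h6⟩ := Pool.Agent.Helper18.CT.st_SL (n - 1) (s - 1)
        (by omega) (by omega)
      let e : Fin ((n - 1) * (s - 1)) ≃ V := (Fintype.equivFinOfCardEq h1).symm
      have hcomm : (n - 1) * (s - 1) = (s - 1) * (n - 1) := mul_comm _ _
      rcases hk.2 _ (by omega) (F.comap e) ⟨conn_comap e h2, conn_compl_comap e h3⟩ with h | h
      · exact not_of_dl (DL.comap e h6) (by omega) h
      · exact not_of_al (AL.comap e h5) (by omega) h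

end Pool.Agent.Helper96.CT
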