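import Pool.Agent.Helper96.CT.Stmts

/-!
# Connected Ramsey numbers of arbitrary trees versus complete graphs (MP_5ec5e0_co, Q2): rows
-/

set_option autoImplicit false

namespace Pool.Agent.Helper96.CT

open SimpleGraph

/-- every vertex of `H` has at least `D` neighbours in `H` -/
def MD {V : Type} (F : SimpleGraph V) (H : Finset V) (D : ℕ) : Prop :=
  ∀ v ∈ H, ∃ I ⊆ H, (∀ x ∈ I, F.Adj v x) ∧ D ≤ I.card

/-- PQ: a longest path `w_0 w_1 w_2 w_3 ...` of the tree (it has at least 4 vertices, as the tree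
is not a star): `p = w_1`, `p' = w_2`, `q = w_3`. -/
def ST_PQ : Prop := ∀ (W : Type) [Fintype W] (T : SimpleGraph W), T.IsTree →
  (∀ v, ∃ w, w ≠ v ∧ ¬ T.Adj v w) →
  ∃ p p' q : W, T.Adj p p' ∧ T.Adj p' q ∧ p ≠ q ∧
    (∀ w, T.Adj p w → w ≠ p' → ∀ u, T.Adj w u → u = p) ∧ ∃ w, T.Adj p w ∧ w ≠ p'

/-- GR: greedy extension of an embedding from the subtree `S` to the subtree `A`: a vertex of
`A \ B` adjacent to the connected set `B ⊇ S` has exactly one neighbour in `B` (no cycles); its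
image: a neighbour in `H` of the image of that neighbour, not yet used (fewer than `D` other used
vertices). -/
def ST_GR : Prop := ∀ (W V : Type) [Fintype W] [DecidableEq W] (T : SimpleGraph W)
  (F : SimpleGraph V) (H : Finset V) (D : ℕ), T.IsAcyclic → MD F H D →
  ∀ (S A : Finset W) (φ : W → V), S ⊆ A → A.card ≤ D + 1 →
    (T.induce (S : Set W)).Connected → (T.induce (A : Set W)).Connected →
    (∀ w ∈ S, φ w ∈ H) → (∀ u ∈ S, ∀ w ∈ S, φ u = φ w → u = w) →
    (∀ u ∈ S, ∀ w ∈ S, T.Adj u w → F.Adj (φ u) (φ w)) →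
    ∃ ψ : W → V, (∀ w ∈ S, ψ w = φ w) ∧ (∀ w ∈ A, ψ w ∈ H) ∧
      (∀ u ∈ A, ∀ w ∈ A, ψ u = ψ w → u = w) ∧
      ∀ u ∈ A, ∀ w ∈ A, T.Adj u w → F.Adj (ψ u) (ψ w)

/-- EM (from PQ, GR): `A` = all vertices but the neighbours `w ≠ p'` of `p` (they are leaves),
`S = {p, p', q}`, `φ : p, p', q ↦ x, z, y`; after GR the image of `p` is not adjacent to the image
of `q`, so it has enough free neighbours in `H` for the leaves. -/
def ST_EM : Prop := ∀ (W V : Type) [Fintype W] (T : SimpleGraph W) (F : SimpleGraph V)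
  (H : Finset V), T.IsTree → (∀ v, ∃ w, w ≠ v ∧ ¬ T.Adj v w) → MD F H (Fintype.card W - 2) →
  ∀ x ∈ H, ∀ y ∈ H, ∀ z ∈ H, x ≠ y → ¬ F.Adj x y → F.Adj x z → F.Adj z y → T.IsContained F

/-- HC: if `H` has no such `x, y, z`, the closed neighbourhood in `H` of a vertex of `H` is a
clique with at least `m - 1` vertices; take `m - 1` of them; `F` is connected. -/
def ST_HC : Prop := ∀ (V : Type) [Fintype V] (F : SimpleGraph V) (H : Finset V) (m : ℕ),
  F.Connected → 2 ≤ m → m ≤ Fintype.card V → H.Nonempty → MD F H (m - 2) →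
  (∃ x ∈ H, ∃ y ∈ H, ∃ z ∈ H, x ≠ y ∧ ¬ F.Adj x y ∧ F.Adj x z ∧ F.Adj z y) ∨
  ∃ K : Finset V, K.card = m - 1 ∧ (∀ a ∈ K, ∀ b ∈ K, a ≠ b → F.Adj a b) ∧
    ∃ h ∈ K, ∃ v, v ∉ K ∧ F.Adj h v

/-- KL: a leaf of the tree goes to `v`, its neighbour to `h`, the other vertices anywhere in
`K`. -/
def ST_KL : Prop := ∀ (W V : Type) [Fintype W] (T : SimpleGraph W) (F : SimpleGraph V)
  (K : Finset V), T.IsTree → 2 ≤ Fintype.card W → K.card = Fintype.card W - 1 →
  (∀ a ∈ K, ∀ b ∈ K, a ≠ b → F.Adj a b) → ∀ h ∈ K, ∀ v, v ∉ K → F.Adj h v → T.IsContained F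

/-- DG: degenerate graphs: remove a vertex with fewer than `d` neighbours, colour the rest. -/
def ST_DG : Prop := ∀ (V : Type) [Fintype V] (F : SimpleGraph V) (d : ℕ), 1 ≤ d →
  (∀ H : Finset V, H.Nonempty → ¬ MD F H d) → F.Colorable d

/-- SB: a tree with a vertex adjacent to all others is a star. -/
def ST_SB : Prop := ∀ (W V : Type) [Fintype W] (T : SimpleGraph W) (F : SimpleGraph V) (c : W),
  T.IsTree → (∀ w, w ≠ c → T.Adj c w) → ∀ (v : V) (I : Finset V), (∀ x ∈ I, F.Adj v x) →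
  Fintype.card W - 1 ≤ I.card → T.IsContained F

end Pool.Agent.Helper96.CT
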