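import Pool.Agent.Helper96.CT.Asm
import Pool.Agent.Helper96.CT.Stmts2

/-!
# Sheet CT: assembly for all trees
-/

set_option autoImplicit false

namespace Pool.Agent.Helper96.CT

open SimpleGraph

theorem tree_bound (hEM : ST_EM) (hHC : ST_HC) (hKL : ST_KL) (hDG : ST_DG) (hSB : ST_SB)
    {W : Type} [Fintype W] (T : SimpleGraph W) (hT : T.IsTree) (hm : 5 ≤ Fintype.card W) {n N : ℕ}
    (hn : 3 ≤ n) (hN : (Fintype.card W - 2) * (n - 1) + 1 ≤ N) (F : SimpleGraph (Fin N))
    (hF : F.Connected) : T.IsContained F ∨ (⊤ : SimpleGraph (Fin n)).IsContained Fᶜ := by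
  by_contra hcon
  rw [not_or] at hcon
  have hA := al_of_not (by omega) hcon.2
  set m := Fintype.card W with hmdef
  have h2 : (m - 2) * 2 ≤ (m - 2) * (n - 1) := Nat.mul_le_mul_left _ (by omega)
  have hcol : F.Colorable (m - 2) := by
    by_cases hst : ∃ c, ∀ w, w ≠ c → T.Adj c w
    · obtain ⟨c, hc⟩ := hst
      have hD : DL F (m - 2) := by
        intro v I hI
        by_contra h
        exact hcon.1 (hSB W (Fin N) T F c hT hc v I hI (by omega))
      exact Pool.Agent.Helper4.CT.st_BR (Fin N) F (m - 2) (by omega) hF hD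
        (by rw [Fintype.card_fin]; omega)
    · apply hDG (Fin N) F (m - 2) (by omega)
      intro H hH hMD
      have hns : ∀ v, ∃ w, w ≠ v ∧ ¬ T.Adj v w := by
        intro v
        by_contra h
        apply hst
        refine ⟨v, fun w hw => ?_⟩
        by_contra h3
        exact h ⟨w, hw, h3⟩
      rcases hHC (Fin N) F H m hF (by omega) (by rw [Fintype.card_fin]; omega) hH hMD with
        ⟨x, hx, y, hy, z, hz, hxy, hnadj, hxz, hzy⟩ | ⟨K, hK1, hK2, h, hh, v, hv, hadj⟩
      · exact hcon.1 (hEM W (Fin N) T F H hT hns hMD x hx y hy z hz hxy hnadj hxz hzy)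
      · exact hcon.1 (hKL W (Fin N) T F K hT (by omega) hK1 hK2 h hh v hv hadj)
  have h3 := card_le_of_col hcol hA
  rw [Fintype.card_fin] at h3
  omega

/-- a set of the form `Forces` with an element has a least element -/
theorem exists_le {α β : Type} (G : SimpleGraph α) (H : SimpleGraph β) {b : ℕ} (hb : 4 ≤ b)
    (h : ∀ N, b ≤ N → ∀ F : SimpleGraph (Fin N), (F.Connected ∧ Fᶜ.Connected) →
      G.IsContained F ∨ H.IsContained Fᶜ) :
    ∃ c, IsLeast (Forces G H) c ∧ c ≤ b := by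
  classical
  have hne : ∃ k, k ∈ Forces G H := ⟨b, hb, h⟩
  exact ⟨Nat.find hne, ⟨Nat.find_spec hne, fun k hk => Nat.find_min' hne hk⟩,
    Nat.find_min' hne ⟨hb, h⟩⟩

theorem tree_main (hEM : ST_EM) (hHC : ST_HC) (hKL : ST_KL) (hDG : ST_DG) (hSB : ST_SB)
    {W : Type} [Fintype W] (T : SimpleGraph W) (hT : T.IsTree) (hm : 5 ≤ Fintype.card W) {n : ℕ}
    (hn : 3 ≤ n) : ∃ c, IsLeast (Forces T (⊤ : SimpleGraph (Fin n))) c ∧
      c ≤ (Fintype.card W - 2) * (n - 1) + 1 := by
  have h2 : 3 * 2 ≤ (Fintype.card W - 2) * (n - 1) := Nat.mul_le_mul (by omega) (by omega)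
  exact exists_le T _ (by omega) fun N hN F hF =>
    tree_bound hEM hHC hKL hDG hSB T hT hm hn hN F hF.1

end Pool.Agent.Helper96.CT
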