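import Pool.Agent.Helper96.CT.Stmts

/-!
# Connected Ramsey numbers of arbitrary trees versus complete graphs (MP_5ec5e0_co, Q2): lower
bound for all trees
-/

set_option autoImplicit false

namespace Pool.Agent.Helper96.CT

open SimpleGraph

/-- chain of cliques: levels `c`, at most `a` vertices on each level, edges inside levels or
between consecutive levels, at most one edge between two consecutive levels -/
def Chain {V : Type} (F : SimpleGraph V) (a : ℕ) (c : V → ℕ) : Prop :=
  (∀ i : ℕ, ∀ I : Finset V, (∀ x ∈ I, c x = i) → I.card ≤ a) ∧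
  (∀ u v, F.Adj u v → c u = c v ∨ c v = c u + 1 ∨ c u = c v + 1) ∧
  ∀ u v u' v', F.Adj u v → F.Adj u' v' → c v = c u + 1 → c v' = c u' + 1 → c u = c u' →
    u = u' ∧ v = v'

/-- hub: without the vertex `h` the edges are inside the fibres of `c`, which have at most `a`
elements (without `h`) -/
def Hub {V : Type} (F : SimpleGraph V) (a : ℕ) (h : V) (c : V → ℕ) : Prop :=
  (∀ i : ℕ, ∀ I : Finset V, (∀ x ∈ I, x ≠ h ∧ c x = i) → I.card ≤ a) ∧
  ∀ u v, F.Adj u v → u ≠ h → v ≠ h → c u = c v

/-- CH: `Fin t × Fin a`, cliques `{i} × Fin a`, and `(i, 0) ~ (i + 1, 1)` (as Helper18/CT/SL). -/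
def ST_CH : Prop := ∀ t a : ℕ, 2 ≤ t → 2 ≤ a →
  ∃ (V : Type) (_ : Fintype V) (F : SimpleGraph V) (c : V → ℕ), Fintype.card V = t * a ∧
    F.Connected ∧ Fᶜ.Connected ∧ AL F t ∧ Chain F a c

/-- HB: the graph of LO (Helper39/CT/LO) with `b = a + 1`, `t - 1` small cliques. -/
def ST_HB : Prop := ∀ t a : ℕ, 2 ≤ t → 2 ≤ a →
  ∃ (V : Type) (_ : Fintype V) (F : SimpleGraph V) (h : V) (c : V → ℕ),
    Fintype.card V = t * a + 1 ∧ F.Connected ∧ Fᶜ.Connected ∧ AL F t ∧ Hub F a h c

/-- NC: `f` the copy, `i = c (f x)`. The vertices of the tree on levels above `i` form a connected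
set without `x` (every one of them is connected, inside this set, to the end of the only edge
between the levels `i` and `i + 1`, since the path to `x` has to use it), the same below; so
`card W ≤ 3 a`. -/
def ST_NC : Prop := ∀ (W V : Type) [Fintype W] (T : SimpleGraph W) (F : SimpleGraph V) (a : ℕ)
  (c : V → ℕ) (x : W), T.Connected → 3 * a < Fintype.card W →
  (∀ B : Finset W, x ∉ B → (T.induce (B : Set W)).Connected → B.card ≤ a) → Chain F a c →
  ¬ T.IsContained F

/-- NH: if `h = f x`, the image of the connected set `B` without `x` is in one fibre; if `h` is not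
in the image, the same for any `B`. -/
def ST_NH : Prop := ∀ (W V : Type) [Fintype W] [Nonempty W] (T : SimpleGraph W)
  (F : SimpleGraph V) (a : ℕ) (h : V) (c : V → ℕ),
  (∀ x : W, ∃ B : Finset W, x ∉ B ∧ (T.induce (B : Set W)).Connected ∧ a < B.card) →
  Hub F a h c → ¬ T.IsContained F

end Pool.Agent.Helper96.CT
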