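import Pool.Agent.Helper96.CT.Asm2
import Pool.Agent.Helper96.CT.Stmts3

/-!
# Sheet CT: assembly of the lower bound for all trees
-/

set_option autoImplicit false

namespace Pool.Agent.Helper96.CT

open SimpleGraph

theorem contained_of_comap {W V U : Type} (e : U ≃ V) {F : SimpleGraph V} {T : SimpleGraph W}
    (h : T.IsContained (F.comap e)) : T.IsContained F := by
  obtain ⟨f⟩ := h
  exact ⟨⟨⟨fun w => e (f w), fun {a b} hab => f.toHom.map_adj hab⟩, fun a b hab =>
    f.injective (e.injective hab)⟩⟩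

theorem tree_lower (hCH : ST_CH) (hHB : ST_HB) (hNC : ST_NC) (hNH : ST_NH)
    {W : Type} [Fintype W] (T : SimpleGraph W) (hT : T.Connected) (hm : 7 ≤ Fintype.card W) {n : ℕ}
    (hn : 3 ≤ n) (k : ℕ) (hk : k ∈ Forces T (⊤ : SimpleGraph (Fin n))) :
    (n - 1) * ((Fintype.card W - 1) / 3) + 1 ≤ k := by
  classical
  by_contra hcon
  set a := (Fintype.card W - 1) / 3 with ha
  have hne : Nonempty W := hT.nonempty
  by_cases hx : ∃ x : W, ∀ B : Finset W, x ∉ B → (T.induce (B : Set W)).Connected → B.card ≤ a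
  · obtain ⟨x, hx⟩ := hx
    obtain ⟨V, i, F, c, h1, h2, h3, h4, h5⟩ := hCH (n - 1) a (by omega) (by omega)
    let e : Fin ((n - 1) * a) ≃ V := (Fintype.equivFinOfCardEq h1).symm
    rcases hk.2 _ (by omega) (F.comap e) ⟨conn_comap e h2, conn_compl_comap e h3⟩ with h | h
    · exact hNC W V T F a c x hT (by omega) hx h5 (contained_of_comap e h)
    · exact not_of_al (AL.comap e h4) (by omega) h
  · push Not at hx
    obtain ⟨V, i, F, u, c, h1, h2, h3, h4, h5⟩ := hHB (n - 1) a (by omega) (by omega)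
    let e : Fin ((n - 1) * a + 1) ≃ V := (Fintype.equivFinOfCardEq h1).symm
    rcases hk.2 _ (by omega) (F.comap e) ⟨conn_comap e h2, conn_compl_comap e h3⟩ with h | h
    · exact hNH W V T F a u c hx h5 (contained_of_comap e h)
    · exact not_of_al (AL.comap e h4) (by omega) h

/-- lower bound from a vertex of large degree -/
theorem deg_lower {W : Type} [Fintype W] (T : SimpleGraph W) {n : ℕ} (hn : 3 ≤ n) (v : W)
    (hd : 3 ≤ (T.neighborSet v).ncard) (k : ℕ)
    (hk : k ∈ Forces T (⊤ : SimpleGraph (Fin n))) :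
    ((T.neighborSet v).ncard - 1) * (n - 1) + 1 ≤ k := by
  classical
  by_contra hcon
  set d := (T.neighborSet v).ncard with hdd
  obtain ⟨V, i, F, h1, h2, h3, h4, h5⟩ := Pool.Agent.Helper18.CT.st_SL (n - 1) (d - 1)
    (by omega) (by omega)
  have hcomm : (n - 1) * (d - 1) = (d - 1) * (n - 1) := mul_comm _ _
  let e : Fin ((n - 1) * (d - 1)) ≃ V := (Fintype.equivFinOfCardEq h1).symm
  rcases hk.2 _ (by omega) (F.comap e) ⟨conn_comap e h2, conn_compl_comap e h3⟩ with h | h
  · obtain ⟨f⟩ := h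
    have h6 := DL.comap e h5 (f v)
      ((Set.toFinite (T.neighborSet v)).toFinset.map ⟨f, f.injective⟩) (by
        intro x hx
        rw [Finset.mem_map] at hx
        obtain ⟨y, hy, rfl⟩ := hx
        rw [Set.Finite.mem_toFinset, mem_neighborSet] at hy
        exact f.toHom.map_adj hy)
    rw [Finset.card_map, ← Set.ncard_eq_toFinset_card (T.neighborSet v), ← hdd] at h6
    omega
  · exact not_of_al (AL.comap e h4) (by omega) h

theorem trees_main (hEM : ST_EM) (hHC : ST_HC) (hKL : ST_KL) (hDG : ST_DG) (hSB : ST_SB)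
    (hCH : ST_CH) (hHB : ST_HB) (hNC : ST_NC) (hNH : ST_NH) (m n : ℕ) (hm : 5 ≤ m) (hn : 3 ≤ n)
    (T : SimpleGraph (Fin m)) (hT : T.IsTree) :
    ∃ c, IsLeast (Forces T (⊤ : SimpleGraph (Fin n))) c ∧ c ≤ (m - 2) * (n - 1) + 1 ∧
      (7 ≤ m → (n - 1) * ((m - 1) / 3) + 1 ≤ c) ∧
      ∀ v, 3 ≤ (T.neighborSet v).ncard → ((T.neighborSet v).ncard - 1) * (n - 1) + 1 ≤ c := by
  obtain ⟨c, hc1, hc2⟩ := tree_main hEM hHC hKL hDG hSB T hT (by rw [Fintype.card_fin]; exact hm) hn
  rw [Fintype.card_fin] at hc2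
  refine ⟨c, hc1, hc2, fun h7 => ?_, fun v hv => deg_lower T hn v hv c hc1.1⟩
  have h := tree_lower hCH hHB hNC hNH T hT.connected (by rw [Fintype.card_fin]; exact h7) hn c hc1.1
  rwa [Fintype.card_fin] at h

end Pool.Agent.Helper96.CT
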