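import Pool.Agent.Helper96.CT.Asm3
import Pool.Agent.Helper10.CT.NC2

/-!
# Sheet CT: all trees, the final form
-/

set_option autoImplicit false

namespace Pool.Agent.Helper96.CT

open SimpleGraph

/-- some vertex `x` such that every component of `T` without `x` has at most `b` vertices -/
def Small {W : Type} (T : SimpleGraph W) (b : ℕ) : Prop :=
  ∃ x : W, ∀ B : Finset W, x ∉ B → (T.induce (B : Set W)).Connected → B.card ≤ b

theorem small_lower (hCH : ST_CH) {W : Type} [Fintype W] (T : SimpleGraph W) (hT : T.Connected)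
    {n b : ℕ} (hn : 3 ≤ n) (hb : Small T b) (hm : 2 * b + 3 ≤ Fintype.card W) (k : ℕ)
    (hk : k ∈ Forces T (⊤ : SimpleGraph (Fin n))) :
    (n - 1) * (Fintype.card W - 1 - 2 * b) + 1 ≤ k := by
  classical
  by_contra hcon
  obtain ⟨x, hx⟩ := hb
  set a := Fintype.card W - 1 - 2 * b with ha
  obtain ⟨V, i, F, c, h1, h2, h3, h4, h5⟩ := hCH (n - 1) a (by omega) (by omega)
  let e : Fin ((n - 1) * a) ≃ V := (Fintype.equivFinOfCardEq h1).symm
  rcases hk.2 _ (by omega) (F.comap e) ⟨conn_comap e h2, conn_compl_comap e h3⟩ with h | h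
  · exact Pool.Agent.Helper10.CT.st_NC2 W V T F a b c x hT (by omega) hx h5
      (contained_of_comap e h)
  · exact not_of_al (AL.comap e h4) (by omega) h

theorem large_lower (hHB : ST_HB) (hNH : ST_NH) {W : Type} [Fintype W] [Nonempty W]
    (T : SimpleGraph W) {n a : ℕ} (hn : 3 ≤ n) (ha : 2 ≤ a) (hb : ¬ Small T a) (k : ℕ)
    (hk : k ∈ Forces T (⊤ : SimpleGraph (Fin n))) :
    (n - 1) * a + 2 ≤ k := by
  classical
  by_contra hcon
  unfold Small at hb
  push Not at hb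
  obtain ⟨V, i, F, u, c, h1, h2, h3, h4, h5⟩ := hHB (n - 1) a (by omega) ha
  let e : Fin ((n - 1) * a + 1) ≃ V := (Fintype.equivFinOfCardEq h1).symm
  rcases hk.2 _ (by omega) (F.comap e) ⟨conn_comap e h2, conn_compl_comap e h3⟩ with h | h
  · exact hNH W V T F a u c hb h5 (contained_of_comap e h)
  · exact not_of_al (AL.comap e h4) (by omega) h

theorem trees_final (hEM : ST_EM) (hHC : ST_HC) (hKL : ST_KL) (hDG : ST_DG) (hSB : ST_SB)
    (hCH : ST_CH) (hHB : ST_HB) (hNC : ST_NC) (hNH : ST_NH) (m n : ℕ) (hm : 5 ≤ m) (hn : 3 ≤ n)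
    (T : SimpleGraph (Fin m)) (hT : T.IsTree) :
    ∃ c, IsLeast (Forces T (⊤ : SimpleGraph (Fin n))) c ∧ c ≤ (m - 2) * (n - 1) + 1 ∧
      (7 ≤ m → (n - 1) * ((m - 1) / 3) + 1 ≤ c) ∧
      (∀ v, 3 ≤ (T.neighborSet v).ncard → ((T.neighborSet v).ncard - 1) * (n - 1) + 1 ≤ c) ∧
      (∀ b, Small T b → 2 * b + 3 ≤ m → (n - 1) * (m - 1 - 2 * b) + 1 ≤ c) ∧
      ∀ a, 2 ≤ a → ¬ Small T a → (n - 1) * a + 2 ≤ c := by
  obtain ⟨c, hc1, hc2, hc3, hc4⟩ :=
    trees_main hEM hHC hKL hDG hSB hCH hHB hNC hNH m n hm hn T hT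
  have hne : Nonempty (Fin m) := ⟨⟨0, by omega⟩⟩
  refine ⟨c, hc1, hc2, hc3, hc4, fun b hb h => ?_, fun a ha hb => large_lower hHB hNH T hn ha hb c hc1.1⟩
  have h1 := small_lower hCH T hT.connected hn hb (by rw [Fintype.card_fin]; exact h) c hc1.1
  rwa [Fintype.card_fin] at h1

end Pool.Agent.Helper96.CT
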