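import Pool.Agent.Helper96.CT.Stmts
import Pool.Agent.Helper70.Cr.Lower

/-!
# Sheet CT: from copies to paths, independent sets and degrees, and back
-/

set_option autoImplicit false

namespace Pool.Agent.Helper96.CT

open SimpleGraph

variable {V : Type}

theorem pl_of_not [Fintype V] {F : SimpleGraph V} {m : ℕ}
    (h : ¬ (pathGraph m).IsContained F) : PL F (m - 1) := by
  intro l h1 h2
  exact Pool.Agent.Helper70.Cr.bdd_of_not_contains (W := Finset.univ) h l
    ⟨h2, h1, fun x _ => Finset.mem_univ x⟩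

theorem not_of_pl {F : SimpleGraph V} {m p : ℕ} (h : PL F p) (hpm : p < m) :
    ¬ (pathGraph m).IsContained F := by
  intro hc
  obtain ⟨g, hg1, hg2⟩ := Pool.Agent.Helper70.Cr.path_seq (by omega) hc
  have h1 := h ((List.range m).map g) (by
      apply List.Nodup.map_on _ List.nodup_range
      intro x hx y hy hxy
      exact hg1 x (List.mem_range.1 hx) y (List.mem_range.1 hy) hxy) (by
      rw [List.isChain_iff_getElem]
      intro i hi
      simp only [List.length_map, List.length_range] at hi
      simp only [List.getElem_map, List.getElem_range]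
      exact hg2 i hi)
  rw [List.length_map, List.length_range] at h1
  omega

theorem contained_of_indep {F : SimpleGraph V} {n : ℕ} (I : Finset V)
    (hI : ∀ x ∈ I, ∀ y ∈ I, x ≠ y → ¬ F.Adj x y) (hn : n ≤ I.card) :
    (⊤ : SimpleGraph (Fin n)).IsContained Fᶜ := by
  obtain ⟨J, hJI, hJ⟩ := Finset.exists_subset_card_eq hn
  let e : Fin n ≃ J := (Finset.equivFinOfCardEq hJ).symm
  refine ⟨⟨⟨fun i => (e i : V), ?_⟩, ?_⟩⟩
  · intro a b hab
    have hne : (e a : V) ≠ e b := fun h => hab (e.injective (Subtype.ext h))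
    rw [compl_adj]
    exact ⟨hne, hI _ (hJI (e a).2) _ (hJI (e b).2) hne⟩
  · intro a b hab
    exact e.injective (Subtype.ext hab)

theorem al_of_not {F : SimpleGraph V} {n : ℕ} (hn : 1 ≤ n)
    (h : ¬ (⊤ : SimpleGraph (Fin n)).IsContained Fᶜ) : AL F (n - 1) := by
  intro I hI
  by_contra hcon
  exact h (contained_of_indep I hI (by omega))

theorem not_of_al {F : SimpleGraph V} {n k : ℕ} (h : AL F k) (hkn : k < n) :
    ¬ (⊤ : SimpleGraph (Fin n)).IsContained Fᶜ := by
  rintro ⟨f⟩
  have h1 := h (Finset.univ.map ⟨f, f.injective⟩) (by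
    intro x hx y hy hxy hadj
    rw [Finset.mem_map] at hx hy
    obtain ⟨a, -, rfl⟩ := hx
    obtain ⟨b, -, rfl⟩ := hy
    have hab : a ≠ b := fun h => hxy (by rw [h])
    have h2 : Fᶜ.Adj (f a) (f b) := f.toHom.map_adj hab
    rw [compl_adj] at h2
    exact h2.2 hadj)
  rw [Finset.card_map, Finset.card_univ, Fintype.card_fin] at h1
  omega

/-- the star `K_(1,s)` -/
abbrev star (s : ℕ) : SimpleGraph (Fin 1 ⊕ Fin s) := completeBipartiteGraph (Fin 1) (Fin s)

theorem star_contained {F : SimpleGraph V} {s : ℕ} (v : V) (I : Finset V)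
    (hI : ∀ x ∈ I, F.Adj v x) (hs : s ≤ I.card) : (star s).IsContained F := by
  obtain ⟨J, hJI, hJ⟩ := Finset.exists_subset_card_eq hs
  let e : Fin s ≃ J := (Finset.equivFinOfCardEq hJ).symm
  have hadj : ∀ i, F.Adj v (e i : V) := fun i => hI _ (hJI (e i).2)
  refine ⟨⟨⟨Sum.elim (fun _ => v) (fun i => (e i : V)), ?_⟩, ?_⟩⟩
  · rintro (a | a) (b | b) hab
    · simp at hab
    · exact hadj b
    · exact (hadj a).symm
    · simp at hab
  · rintro (a | a) (b | b) hab
    · rw [Subsingleton.elim a b]
    · exact absurd hab (hadj b).ne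
    · exact absurd hab (hadj a).ne'
    · exact congrArg Sum.inr (e.injective (Subtype.ext hab))

theorem dl_of_not {F : SimpleGraph V} {s : ℕ} (hs : 1 ≤ s)
    (h : ¬ (star s).IsContained F) : DL F (s - 1) := by
  intro v I hI
  by_contra hcon
  exact h (star_contained v I hI (by omega))

theorem not_of_dl {F : SimpleGraph V} {s d : ℕ} (h : DL F d) (hds : d < s) :
    ¬ (star s).IsContained F := by
  rintro ⟨f⟩
  have h1 := h (f (Sum.inl 0)) (Finset.univ.map ⟨fun i : Fin s => f (Sum.inr i), by
    intro a b hab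
    exact Sum.inr_injective (f.injective hab)⟩) (by
    intro x hx
    rw [Finset.mem_map] at hx
    obtain ⟨a, -, rfl⟩ := hx
    apply f.toHom.map_adj
    simp)
  rw [Finset.card_map, Finset.card_univ, Fintype.card_fin] at h1
  omega

section transfer
variable {W : Type} (e : W ≃ V) {F : SimpleGraph V}

theorem conn_comap (h : F.Connected) : (F.comap e).Connected :=
  (Iso.connected_iff (⟨e, Iff.rfl⟩ : F.comap e ≃g F)).2 h

theorem conn_compl_comap (h : Fᶜ.Connected) : (F.comap e)ᶜ.Connected :=
  (Iso.connected_iff (⟨e, by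
    intro a b
    rw [compl_adj, compl_adj, comap_adj, e.injective.ne_iff]⟩ : (F.comap e)ᶜ ≃g Fᶜ)).2 h

theorem AL.comap {k : ℕ} (h : AL F k) : AL (F.comap e) k := by
  intro I hI
  have h1 := h (I.map e.toEmbedding) (by
    intro x hx y hy hxy
    rw [Finset.mem_map] at hx hy
    obtain ⟨a, ha, rfl⟩ := hx
    obtain ⟨b, hb, rfl⟩ := hy
    exact hI a ha b hb (fun h => hxy (by rw [h])))
  rwa [Finset.card_map] at h1

theorem PL.comap {p : ℕ} (h : PL F p) : PL (F.comap e) p := by
  intro l h1 h2
  have h3 := h (l.map e) (h1.map e.injective) (by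
    rw [List.isChain_map]
    exact h2)
  rwa [List.length_map] at h3

theorem DL.comap {d : ℕ} (h : DL F d) : DL (F.comap e) d := by
  intro v I hI
  have h1 := h (e v) (I.map e.toEmbedding) (by
    intro x hx
    rw [Finset.mem_map] at hx
    obtain ⟨a, ha, rfl⟩ := hx
    exact hI a ha)
  rwa [Finset.card_map] at h1

end transfer

/-- a graph on at least two vertices with connected complement has two nonadjacent vertices -/
theorem two_indep {N : ℕ} (hN : 2 ≤ N) {F : SimpleGraph (Fin N)} (hF : Fᶜ.Connected) :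
    ∃ I : Finset (Fin N), (∀ x ∈ I, ∀ y ∈ I, x ≠ y → ¬ F.Adj x y) ∧ I.card = 2 := by
  classical
  obtain ⟨w⟩ := hF.preconnected (⟨0, by omega⟩ : Fin N) ⟨1, by omega⟩
  cases w with
  | @cons _ b _ h w' =>
    rw [compl_adj] at h
    refine ⟨{⟨0, by omega⟩, b}, ?_, Finset.card_pair h.1⟩
    intro x hx y hy hxy hadj
    rw [Finset.mem_insert, Finset.mem_singleton] at hx hy
    rcases hx with rfl | rfl <;> rcases hy with rfl | rfl
    · exact hxy rfl
    · exact h.2 hadj
    · exact h.2 hadj.symm
    · exact hxy rfl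

end Pool.Agent.Helper96.CT
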