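import Mathlib

/-!
# Connected Ramsey numbers of paths and stars versus complete graphs (MP_5ec5e0_co, Q2): rows
-/

set_option autoImplicit false

namespace Pool.Agent.Helper96.CT

open SimpleGraph

/-- every set of pairwise nonadjacent vertices has at most `k` elements -/
def AL {V : Type} (F : SimpleGraph V) (k : ℕ) : Prop :=
  ∀ I : Finset V, (∀ x ∈ I, ∀ y ∈ I, x ≠ y → ¬ F.Adj x y) → I.card ≤ k

/-- every path has at most `p` vertices -/
def PL {V : Type} (F : SimpleGraph V) (p : ℕ) : Prop :=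
  ∀ l : List V, l.Nodup → l.IsChain F.Adj → l.length ≤ p

/-- LA: strong induction on `S`: `S` nonempty, `v ∈ R`. Let `C` be the set of vertices of `S`
reachable from `v` inside `S`. If `C ≠ S`: induction for `C` (roots `{v}`) and `S \ C` (roots
`R \ C`), unions of independent sets of the two are independent. If `C = S`: induction for
`S \ {v}`, roots the neighbours of `v` in it, `h - 1`. -/
def ST_LA : Prop := ∀ (V : Type) [Fintype V] [DecidableEq V] (F : SimpleGraph V) (h : ℕ)
  (S R : Finset V), R ⊆ S →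
  (∀ x ∈ S, ∃ l : List V, l ≠ [] ∧ l.IsChain F.Adj ∧ (∀ y ∈ l, y ∈ S) ∧
    (∀ y ∈ l.head?, y ∈ R) ∧ ∀ y ∈ l.getLast?, y = x) →
  (∀ l : List V, l.Nodup → l.IsChain F.Adj → (∀ y ∈ l, y ∈ S) → (∀ y ∈ l.head?, y ∈ R) →
    l.length ≤ h) →
  ∃ I ⊆ S, (∀ x ∈ I, ∀ y ∈ I, x ≠ y → ¬ F.Adj x y) ∧ S.card ≤ h * I.card

/-- UP (from LA): take a longest path `P = v_0 ... v_(q-1)`, `q ≤ p`. If it is Hamiltonian, done
(`k ≥ 2`). Otherwise `S` = vertices outside `P`, `R` = those of `S` adjacent to `P`; a path in `S`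
starting at a neighbour of `v_d` has at most `min d (q-1-d) ≤ (q-1)/2 ≤ (p-1)/2` vertices, so
`|S| ≤ (p-1)/2 * |I|`; `v_0`, `v_(q-1)` are not adjacent (a cycle on `P` gives a longer path) and
have no neighbours in `S`, so `|I| + 2 ≤ k`. -/
def ST_UP : Prop := ∀ (V : Type) [Fintype V] (F : SimpleGraph V) (k p : ℕ), F.Connected → 2 ≤ k →
  1 ≤ p → AL F k → PL F p → Fintype.card V ≤ k * ((p - 1) / 2) + 1 + (p + 1) % 2

/-- LO: a clique `B` with `b` vertices, `c ∈ B`, `t` cliques `A_i` with `a` vertices, one vertex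
of each `A_i` joined to `c`. A path through `c` meets at most two of the components left when `c`
is removed. -/
def ST_LO : Prop := ∀ a b t : ℕ, 2 ≤ a → a + 1 ≤ b → 1 ≤ t →
  ∃ (V : Type) (_ : Fintype V) (F : SimpleGraph V), Fintype.card V = b + t * a ∧
    F.Connected ∧ Fᶜ.Connected ∧ AL F (t + 1) ∧ PL F (a + b)

/-- L5: the double star with `t + 2` vertices: centres `u, v` adjacent, `v` with one leaf, `u`
with `t - 1` leaves. -/
def ST_L5 : Prop := ∀ t : ℕ, 2 ≤ t →
  ∃ (V : Type) (_ : Fintype V) (F : SimpleGraph V), Fintype.card V = t + 2 ∧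
    F.Connected ∧ Fᶜ.Connected ∧ AL F t ∧ PL F 4

/-- every vertex has at most `d` neighbours -/
def DL {V : Type} (F : SimpleGraph V) (d : ℕ) : Prop :=
  ∀ (v : V) (I : Finset V), (∀ x ∈ I, F.Adj v x) → I.card ≤ d

/-- BR: Brooks' theorem for connected graphs with more than `d + 1` vertices, `d ≥ 3` (for `d = 3`
see Helper35/Inj/Brooks.lean, Zajac's proof). -/
def ST_BR : Prop := ∀ (V : Type) [Fintype V] (F : SimpleGraph V) (d : ℕ), 3 ≤ d → F.Connected →
  DL F d → d + 1 < Fintype.card V → F.Colorable d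

/-- SL: `Fin t × Fin d`, cliques `{i} × Fin d`, and `(i, 0) ~ (i + 1, 1)`. -/
def ST_SL : Prop := ∀ t d : ℕ, 2 ≤ t → 2 ≤ d →
  ∃ (V : Type) (_ : Fintype V) (F : SimpleGraph V), Fintype.card V = t * d ∧
    F.Connected ∧ Fᶜ.Connected ∧ AL F t ∧ DL F d

/-- SC: the cycle with `2 t + 1` vertices. -/
def ST_SC : Prop := ∀ t : ℕ, 2 ≤ t →
  ∃ (V : Type) (_ : Fintype V) (F : SimpleGraph V), Fintype.card V = 2 * t + 1 ∧
    F.Connected ∧ Fᶜ.Connected ∧ AL F t ∧ DL F 2

/-- SD: a connected graph of maximum degree at most 2: a longest path contains all vertices;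
every second vertex of it (without the last one if the number of vertices is odd) is a set of
pairwise nonadjacent vertices. -/
def ST_SD : Prop := ∀ (V : Type) [Fintype V] (F : SimpleGraph V) (k : ℕ), F.Connected →
  DL F 2 → AL F k → Fintype.card V ≤ 2 * k + 1

end Pool.Agent.Helper96.CT
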